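import Mathlib
import Pool.Agent.H204R3.CM.Main

/-!
# Small vectors in stable spaces of antisymmetric functions on an abelian group
-/

set_option linter.unusedSectionVars false
set_option linter.unusedVariables false

namespace Pool.Agent.H868R3.GPC

open Module

section eigen

variable {G : Type*} [CommGroup G] [Finite G] {Ω : Type*} [Field Ω] [IsAlgClosed Ω]

/-- Translation of functions. -/
noncomputable def tr (Ω : Type*) [Field Ω] (g : G) : (G → Ω) →ₗ[Ω] (G → Ω) :=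
  LinearMap.funLeft Ω Ω (fun x => g * x)

theorem tr_apply (g : G) (f : G → Ω) (x : G) : tr Ω g f x = f (g * x) := rfl

theorem exists_scalar (S : Submodule Ω (G → Ω)) (hS : ∀ f ∈ S, ∀ g : G, tr Ω g f ∈ S)
    (hne : S ≠ ⊥) (A : Finset G) :
    ∃ N : Submodule Ω (G → Ω), N ≠ ⊥ ∧ N ≤ S ∧ (∀ f ∈ N, ∀ g : G, tr Ω g f ∈ N) ∧
      ∀ g ∈ A, ∃ μ : Ω, ∀ f ∈ N, tr Ω g f = μ • f := by
  classical
  induction A using Finset.induction_on with
  | empty => exact ⟨S, hne, le_rfl, hS, fun g hg => absurd hg (Finset.notMem_empty g)⟩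
  | insert a A ha ih =>
    obtain ⟨N, h1, h2, h3, h4⟩ := ih
    have hnt : Nontrivial N := (Submodule.nontrivial_iff_ne_bot).2 h1
    let r : N →ₗ[Ω] N := (tr Ω a).restrict (fun f hf => h3 f hf a)
    obtain ⟨μ, hμ⟩ := Module.End.exists_eigenvalue r
    obtain ⟨v, hv⟩ := hμ.exists_hasEigenvector
    have hv1 : tr Ω a v.1 = μ • v.1 := congrArg Subtype.val hv.apply_eq_smul
    have hv0 : v.1 ≠ 0 := fun h => hv.2 (Subtype.ext h)
    refine ⟨N ⊓ LinearMap.ker (tr Ω a - μ • LinearMap.id), ?_, inf_le_left.trans h2, ?_, ?_⟩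
    · intro h
      have h5 : v.1 ∈ N ⊓ LinearMap.ker (tr Ω a - μ • LinearMap.id) := by
        refine ⟨v.2, ?_⟩
        rw [SetLike.mem_coe, LinearMap.mem_ker, LinearMap.sub_apply, LinearMap.smul_apply,
          LinearMap.id_apply, hv1, sub_self]
      rw [h] at h5
      exact hv0 ((Submodule.mem_bot Ω).1 h5)
    · rintro f ⟨hf1, hf2⟩ g
      refine ⟨h3 f hf1 g, ?_⟩
      rw [SetLike.mem_coe, LinearMap.mem_ker, LinearMap.sub_apply, LinearMap.smul_apply,
        LinearMap.id_apply, sub_eq_zero] at hf2 ⊢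
      have h6 : tr Ω a (tr Ω g f) = tr Ω g (tr Ω a f) := by
        funext x
        rw [tr_apply, tr_apply, tr_apply, tr_apply, mul_left_comm]
      rw [h6, hf2, map_smul]
    · intro g hg
      rcases Finset.mem_insert.1 hg with rfl | hg
      · refine ⟨μ, fun f hf => ?_⟩
        have hf2 := hf.2
        rw [SetLike.mem_coe, LinearMap.mem_ker, LinearMap.sub_apply, LinearMap.smul_apply,
          LinearMap.id_apply, sub_eq_zero] at hf2
        exact hf2
      · obtain ⟨ν, hν⟩ := h4 g hg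
        exact ⟨ν, fun f hf => hν f hf.1⟩

/-- A nonzero translation-invariant space of functions on an abelian group contains a
character. -/
theorem exists_char (S : Submodule Ω (G → Ω)) (hS : ∀ f ∈ S, ∀ g : G, tr Ω g f ∈ S)
    (hne : S ≠ ⊥) : ∃ χ : G →* Ω, (fun x => χ x) ∈ S := by
  classical
  have := Fintype.ofFinite G
  obtain ⟨N, h1, h2, h3, h4⟩ := exists_scalar S hS hne Finset.univ
  obtain ⟨f, hf, hf0⟩ := Submodule.exists_mem_ne_zero_of_ne_bot h1
  choose μ hμ using fun g => h4 g (Finset.mem_univ g)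
  have h5 : ∀ g x, f (g * x) = μ g * f x := by
    intro g x
    have h6 := congrFun (hμ g f hf) x
    exact h6
  have h6 : ∀ g, f g = μ g * f 1 := by
    intro g
    have h7 := h5 g 1
    rwa [mul_one] at h7
  have h7 : f 1 ≠ 0 := by
    intro h
    apply hf0
    funext g
    rw [h6, h, mul_zero]
    rfl
  refine ⟨{ toFun := fun g => (f 1)⁻¹ * f g
            map_one' := inv_mul_cancel₀ h7
            map_mul' := fun g h => ?_ }, ?_⟩
  · rw [h5 g h, h6 g]
    field_simp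
  · exact h2 (N.smul_mem (f 1)⁻¹ hf)

end eigen

section fourier

variable {Ω : Type*} [Field Ω] [CharZero Ω]

/-- The exponents of the expansion of the product of the `1 + x ^ (m / p)`. -/
def expo (m : ℕ) (A : Finset ℕ) : ℕ := ∑ p ∈ A, m / p

/-- The odd prime divisors of `m`. -/
def oddPrimes (m : ℕ) : Finset ℕ := m.primeFactors.filter (fun p => p ≠ 2)

theorem pow_dvd_div {m p q : ℕ} (hm : m ≠ 0) (hp : p.Prime) (hq : q.Prime) (hqm : q ∣ m)
    (hpq : p ≠ q) : p ^ m.factorization p ∣ m / q := by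
  have h1 : Nat.Coprime (p ^ m.factorization p) q :=
    Nat.Coprime.pow_left _ ((Nat.coprime_primes hp hq).2 hpq)
  have h2 : q * p ^ m.factorization p ∣ m :=
    Nat.Coprime.mul_dvd_of_dvd_of_dvd h1.symm hqm (Nat.ordProj_dvd m p)
  exact Nat.dvd_div_of_mul_dvd h2

theorem not_pow_dvd_div {m p : ℕ} (hm : m ≠ 0) (hp : p.Prime) (hpm : p ∣ m) :
    ¬ p ^ m.factorization p ∣ m / p := by
  intro h
  apply Nat.pow_succ_factorization_not_dvd hm hp
  obtain ⟨k, hk⟩ := h
  refine ⟨k, ?_⟩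
  have h1 : p * (m / p) = m := Nat.mul_div_cancel' hpm
  calc m = p * (m / p) := h1.symm
    _ = p * (p ^ m.factorization p * k) := by rw [← hk]
    _ = p ^ (m.factorization p + 1) * k := by ring

theorem sub_of_modEq {m : ℕ} (hm : m ≠ 0) {A B : Finset ℕ} (hA : A ⊆ oddPrimes m)
    (hB : B ⊆ oddPrimes m) (h : expo m A ≡ expo m B [MOD m]) : A ⊆ B := by
  classical
  intro p hp
  by_contra hpB
  have hpm : p ∈ m.primeFactors := (Finset.mem_filter.1 (hA hp)).1
  have hpp : p.Prime := Nat.prime_of_mem_primeFactors hpm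
  have hpd : p ∣ m := Nat.dvd_of_mem_primeFactors hpm
  have h1 : expo m A = m / p + ∑ q ∈ A.erase p, m / q := by
    unfold expo
    rw [Finset.add_sum_erase _ _ hp]
  have h2 : p ^ m.factorization p ∣ ∑ q ∈ A.erase p, m / q := by
    refine Finset.dvd_sum fun q hq => ?_
    have hq' : q ∈ m.primeFactors := (Finset.mem_filter.1 (hA (Finset.mem_of_mem_erase hq))).1
    exact pow_dvd_div hm hpp (Nat.prime_of_mem_primeFactors hq') (Nat.dvd_of_mem_primeFactors hq')
      (Finset.ne_of_mem_erase hq).symm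
  have h3 : p ^ m.factorization p ∣ expo m B := by
    refine Finset.dvd_sum fun q hq => ?_
    have hq' : q ∈ m.primeFactors := (Finset.mem_filter.1 (hB hq)).1
    exact pow_dvd_div hm hpp (Nat.prime_of_mem_primeFactors hq') (Nat.dvd_of_mem_primeFactors hq')
      (fun h => hpB (h ▸ hq))
  have h4 : expo m A ≡ expo m B [MOD p ^ m.factorization p] :=
    h.of_dvd (Nat.ordProj_dvd m p)
  have h5 : p ^ m.factorization p ∣ expo m A := (h4.dvd_iff (dvd_refl _)).2 h3
  rw [h1] at h5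
  exact not_pow_dvd_div hm hpp hpd ((Nat.dvd_add_left h2).1 h5)

theorem eq_of_modEq {m : ℕ} (hm : m ≠ 0) {A B : Finset ℕ} (hA : A ⊆ oddPrimes m)
    (hB : B ⊆ oddPrimes m) (h : expo m A ≡ expo m B [MOD m]) : A = B :=
  Finset.Subset.antisymm (sub_of_modEq hm hA hB h) (sub_of_modEq hm hB hA h.symm)

theorem modEq_of_sq {m : ℕ} (hm : m ≠ 0) {ζ : Ω} (hζ : IsPrimitiveRoot ζ (2 * m)) {a b : ℕ}
    (h : (ζ ^ a) ^ 2 = (ζ ^ b) ^ 2) : a ≡ b [MOD m] := by
  rw [← pow_mul, ← pow_mul] at h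
  have h2m : 2 * m ≠ 0 := by omega
  have h1 : a * 2 ≡ b * 2 [MOD 2 * m] := by
    have hζ0 : ζ ≠ 0 := hζ.ne_zero h2m
    have h3 : ζ ^ (((b * 2 : ℕ) : ℤ) - ((a * 2 : ℕ) : ℤ)) = 1 := by
      rw [zpow_sub₀ hζ0, zpow_natCast, zpow_natCast, h, div_self (pow_ne_zero _ hζ0)]
    exact (Nat.modEq_iff_dvd).2 ((hζ.zpow_eq_one_iff_dvd _).1 h3)
  rw [mul_comm a, mul_comm b] at h1
  exact Nat.ModEq.mul_left_cancel' (by norm_num) h1

open Classical in
/-- The small function on the group of roots of unity. -/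
noncomputable def small (m : ℕ) (ζ z : Ω) : ℚ :=
  ∑ A ∈ (oddPrimes m).powerset, ((if z = ζ ^ expo m A then (1 : ℚ) else 0) -
    (if z = -ζ ^ expo m A then (1 : ℚ) else 0))

theorem small_values {m : ℕ} (hm : m ≠ 0) {ζ : Ω} (hζ : IsPrimitiveRoot ζ (2 * m)) (z : Ω) :
    small m ζ z = 0 ∨ small m ζ z = 1 ∨ small m ζ z = -1 := by
  classical
  have hζ0 : ζ ≠ 0 := hζ.ne_zero (by omega)
  have hne : ∀ k : ℕ, ζ ^ k ≠ -ζ ^ k := by
    intro k h
    have h1 : ζ ^ k ≠ 0 := pow_ne_zero _ hζ0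
    exact h1 (self_eq_neg.1 h)
  have key : ∀ A ⊆ oddPrimes m, ∀ B ⊆ oddPrimes m, (ζ ^ expo m A = ζ ^ expo m B ∨
      ζ ^ expo m A = - ζ ^ expo m B) → A = B := by
    intro A hA B hB h
    apply eq_of_modEq hm hA hB
    apply modEq_of_sq hm hζ
    rcases h with h | h
    · rw [h]
    · rw [h, neg_sq]
  by_cases h1 : ∃ A ⊆ oddPrimes m, z = ζ ^ expo m A
  · obtain ⟨A, hA, rfl⟩ := h1
    right; left
    unfold small
    rw [Finset.sum_eq_single A]
    · rw [if_pos rfl, if_neg (hne _), sub_zero]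
    · intro B hB hBA
      rw [Finset.mem_powerset] at hB
      rw [if_neg (fun h => hBA (key A hA B hB (Or.inl h)).symm),
        if_neg (fun h => hBA (key A hA B hB (Or.inr h)).symm), sub_zero]
    · intro h
      exact absurd (Finset.mem_powerset.2 hA) h
  · by_cases h2 : ∃ A ⊆ oddPrimes m, z = -ζ ^ expo m A
    · obtain ⟨A, hA, rfl⟩ := h2
      right; right
      unfold small
      rw [Finset.sum_eq_single A]
      · rw [if_pos rfl, if_neg (fun h => hne _ h.symm), zero_sub]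
      · intro B hB hBA
        rw [Finset.mem_powerset] at hB
        rw [if_neg (fun h => hBA (key A hA B hB (Or.inr (by rw [← h, neg_neg]))).symm),
          if_neg (fun h => hBA (key A hA B hB (Or.inl (neg_injective h))).symm), sub_zero]
      · intro h
        exact absurd (Finset.mem_powerset.2 hA) h
    · left
      unfold small
      refine Finset.sum_eq_zero fun A hA => ?_
      rw [Finset.mem_powerset] at hA
      rw [if_neg (fun h => h1 ⟨A, hA, h⟩), if_neg (fun h => h2 ⟨A, hA, h⟩), sub_zero]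

theorem small_one {m : ℕ} (hm : m ≠ 0) {ζ : Ω} (hζ : IsPrimitiveRoot ζ (2 * m)) :
    small m ζ (1 : Ω) ≠ 0 := by
  classical
  have hζ0 : ζ ≠ 0 := hζ.ne_zero (by omega)
  have hne : ∀ k : ℕ, ζ ^ k ≠ -ζ ^ k := by
    intro k h
    have h1 : ζ ^ k ≠ 0 := pow_ne_zero _ hζ0
    exact h1 (self_eq_neg.1 h)
  have key : ∀ A ⊆ oddPrimes m, ∀ B ⊆ oddPrimes m, (ζ ^ expo m A = ζ ^ expo m B ∨
      ζ ^ expo m A = - ζ ^ expo m B) → A = B := by
    intro A hA B hB h
    apply eq_of_modEq hm hA hB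
    apply modEq_of_sq hm hζ
    rcases h with h | h
    · rw [h]
    · rw [h, neg_sq]
  have h0 : (1 : Ω) = ζ ^ expo m ∅ := by simp [expo]
  unfold small
  rw [Finset.sum_eq_single ∅]
  · rw [h0, if_pos rfl, if_neg (hne _), sub_zero]
    exact one_ne_zero
  · intro B hB hBA
    rw [Finset.mem_powerset] at hB
    rw [if_neg (fun h => hBA (key ∅ (Finset.empty_subset _) B hB (Or.inl (by rw [← h0]; exact h))).symm),
      if_neg (fun h => hBA (key ∅ (Finset.empty_subset _) B hB (Or.inr (by rw [← h0]; exact h))).symm), sub_zero]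
  · intro h
    exact absurd (Finset.mem_powerset.2 (Finset.empty_subset _)) h

/-- The Fourier coefficient. -/
noncomputable def fc (m : ℕ) (ζ : Ω) (k : ℕ) : Ω :=
  (1 - (-1) ^ k) * ∏ p ∈ oddPrimes m, (1 + (ζ⁻¹ ^ (m / p)) ^ k)

theorem fc_eq_zero {m : ℕ} (hm : m ≠ 0) {ζ : Ω} (hζ : IsPrimitiveRoot ζ (2 * m)) (k : ℕ)
    (hk : ¬ k.Coprime (2 * m)) : fc m ζ k = 0 := by
  have hζm : ζ ^ m = -1 := by
    have h1 : (ζ ^ m) ^ 2 = 1 := by
      rw [← pow_mul, mul_comm, hζ.pow_eq_one]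
    rw [sq] at h1
    rcases mul_self_eq_one_iff.1 h1 with h | h
    · exact absurd ((hζ.pow_eq_one_iff_dvd m).1 h) (fun h2 => by
        have := Nat.le_of_dvd (Nat.pos_of_ne_zero hm) h2
        omega)
    · exact h
  obtain ⟨q, hq, hqk, hqm⟩ := Nat.Prime.not_coprime_iff_dvd.1 hk
  unfold fc
  by_cases h2 : q = 2
  · subst h2
    have h3 : Even k := (even_iff_two_dvd).2 hqk
    rw [h3.neg_one_pow, sub_self, zero_mul]
  · by_cases hke : Even k
    · rw [hke.neg_one_pow, sub_self, zero_mul]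
    · have hqm' : q ∣ m := by
        rcases (hq.dvd_mul).1 hqm with h | h
        · exact absurd ((Nat.prime_dvd_prime_iff_eq hq Nat.prime_two).1 h) h2
        · exact h
      have hmem : q ∈ oddPrimes m :=
        Finset.mem_filter.2 ⟨Nat.mem_primeFactors.2 ⟨hq, hqm', hm⟩, h2⟩
      rw [Finset.prod_eq_zero hmem, mul_zero]
      obtain ⟨k', rfl⟩ := hqk
      have hk' : Odd k' := by
        rw [Nat.not_even_iff_odd] at hke
        exact (Nat.odd_mul.1 hke).2
      have h4 : (ζ⁻¹ ^ (m / q)) ^ (q * k') = (-1) ^ k' := by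
        rw [pow_mul, ← pow_mul ζ⁻¹, Nat.div_mul_cancel hqm', inv_pow, hζm]
        norm_num
      rw [h4, hk'.neg_one_pow]
      ring

theorem indicator {n : ℕ} (hn : n ≠ 0) (z w : Ω) (hz : z ^ n = 1) (hw : w ^ n = 1)
    [Decidable (z = w)] :
    ((if z = w then (1 : ℚ) else 0 : ℚ) : Ω) = (1 / n) * ∑ k ∈ Finset.range n, (z * w⁻¹) ^ k := by
  have hn' : (n : Ω) ≠ 0 := Nat.cast_ne_zero.2 hn
  have hw0 : w ≠ 0 := by
    rintro rfl
    rw [zero_pow hn] at hw
    exact zero_ne_one hw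
  by_cases h : z = w
  · subst h
    rw [if_pos rfl, mul_inv_cancel₀ hw0]
    simp [hn']
  · rw [if_neg h]
    have h1 : z * w⁻¹ ≠ 1 := by
      intro h2
      apply h
      field_simp at h2
      exact h2
    rw [geom_sum_eq h1, mul_pow, inv_pow, hz, hw]
    simp

theorem small_fourier {m : ℕ} (hm : m ≠ 0) {ζ : Ω} (hζ : IsPrimitiveRoot ζ (2 * m)) (z : Ω)
    (hz : z ^ (2 * m) = 1) :
    ((small m ζ z : ℚ) : Ω) = ∑ k ∈ Finset.range (2 * m),
      ((1 / ((2 * m : ℕ) : Ω)) * fc m ζ k) * z ^ k := by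
  classical
  have h2m : 2 * m ≠ 0 := by omega
  unfold small
  rw [Rat.cast_sum]
  have h1 : ∀ A ∈ (oddPrimes m).powerset,
      (((if z = ζ ^ expo m A then (1 : ℚ) else 0) -
        (if z = -ζ ^ expo m A then (1 : ℚ) else 0) : ℚ) : Ω) =
      ∑ k ∈ Finset.range (2 * m), (1 / ((2 * m : ℕ) : Ω)) * (1 - (-1) ^ k) *
        (∏ p ∈ A, (ζ⁻¹ ^ (m / p)) ^ k) * z ^ k := by
    intro A _
    have hw : (ζ ^ expo m A) ^ (2 * m) = 1 := by
      rw [← pow_mul, mul_comm, pow_mul, hζ.pow_eq_one, one_pow]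
    have hw' : (-ζ ^ expo m A) ^ (2 * m) = 1 := by
      rw [neg_pow, hw, pow_mul]
      norm_num
    rw [Rat.cast_sub, indicator h2m z _ hz hw, indicator h2m z _ hz hw', ← mul_sub,
      ← Finset.sum_sub_distrib, Finset.mul_sum]
    refine Finset.sum_congr rfl fun k _ => ?_
    have h3 : ∏ p ∈ A, (ζ⁻¹ ^ (m / p)) ^ k = ((ζ ^ expo m A)⁻¹) ^ k := by
      rw [Finset.prod_pow, Finset.prod_pow_eq_pow_sum, ← inv_pow]
      rfl
    rw [h3, inv_neg, mul_neg, neg_pow (z * _), mul_pow]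
    ring
  rw [Finset.sum_congr rfl h1, Finset.sum_comm]
  refine Finset.sum_congr rfl fun k _ => ?_
  unfold fc
  rw [Finset.prod_one_add, ← Finset.sum_mul, ← Finset.mul_sum]
  ring

end fourier

end Pool.Agent.H868R3.GPC
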