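import Mathlib
import Pool.Agent.H868R3.GPC.Small

/-!
# Small vectors in stable spaces of antisymmetric functions on an abelian group: the theorem
-/

set_option linter.unusedSectionVars false
set_option linter.unusedVariables false

namespace Pool.Agent.H868R3.GPC

open Module

variable {G : Type*} [CommGroup G] [Finite G]

/-- The scalar extension of a space of rational functions. -/
noncomputable def ext (M : Submodule ℚ (G → ℚ)) :
    Submodule (AlgebraicClosure ℚ) (G → AlgebraicClosure ℚ) :=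
  Submodule.span (AlgebraicClosure ℚ)
    {g | ∃ s ∈ (M : Set (G → ℚ)), g = fun x => ((s x : ℚ) : AlgebraicClosure ℚ)}

theorem gal_mem (M : Submodule ℚ (G → ℚ)) (σ : AlgebraicClosure ℚ ≃ₐ[ℚ] AlgebraicClosure ℚ)
    (v : G → AlgebraicClosure ℚ) (hv : v ∈ ext M) : (fun x => σ (v x)) ∈ ext M := by
  induction hv using Submodule.span_induction with
  | mem v hv =>
    obtain ⟨s, hs, rfl⟩ := hv
    refine Submodule.subset_span ⟨s, hs, ?_⟩
    funext x
    exact map_ratCast σ _
  | zero =>
    have h : (fun x => σ ((0 : G → AlgebraicClosure ℚ) x)) = 0 := by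
      funext x
      exact map_zero σ
    rw [h]
    exact Submodule.zero_mem _
  | add a b _ _ ha hb =>
    have h : (fun x => σ ((a + b) x)) = (fun x => σ (a x)) + fun x => σ (b x) := by
      funext x
      exact map_add σ _ _
    rw [h]
    exact Submodule.add_mem _ ha hb
  | smul r a _ ha =>
    have h : (fun x => σ ((r • a) x)) = σ r • fun x => σ (a x) := by
      funext x
      exact map_mul σ _ _
    rw [h]
    exact Submodule.smul_mem _ _ ha

theorem tr_mem (M : Submodule ℚ (G → ℚ)) (hM : ∀ f ∈ M, ∀ g : G, (fun x => f (g * x)) ∈ M)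
    (v : G → AlgebraicClosure ℚ) (hv : v ∈ ext M) (g : G) :
    tr (AlgebraicClosure ℚ) g v ∈ ext M := by
  induction hv using Submodule.span_induction with
  | mem v hv =>
    obtain ⟨s, hs, rfl⟩ := hv
    exact Submodule.subset_span ⟨_, hM s hs g, rfl⟩
  | zero =>
    rw [map_zero]
    exact Submodule.zero_mem _
  | add a b _ _ ha hb =>
    rw [map_add]
    exact Submodule.add_mem _ ha hb
  | smul r a _ ha =>
    rw [map_smul]
    exact Submodule.smul_mem _ _ ha

theorem anti_mem (c : G) (M : Submodule ℚ (G → ℚ)) (hanti : ∀ f ∈ M, ∀ x, f (c * x) = -f x)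
    (v : G → AlgebraicClosure ℚ) (hv : v ∈ ext M) : ∀ x, v (c * x) = -v x := by
  induction hv using Submodule.span_induction with
  | mem v hv =>
    obtain ⟨s, hs, rfl⟩ := hv
    intro x
    change ((s (c * x) : ℚ) : AlgebraicClosure ℚ) = _
    rw [hanti s hs x, Rat.cast_neg]
  | zero =>
    intro x
    exact neg_zero.symm
  | add a b _ _ ha hb =>
    intro x
    rw [Pi.add_apply, Pi.add_apply, ha, hb, neg_add]
  | smul r a _ ha =>
    intro x
    rw [Pi.smul_apply, Pi.smul_apply, ha, smul_neg]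

/-- **Small vectors.** Let `G` be a finite abelian group and `c` an element of `G`. Every nonzero
translation-invariant rational space of functions `f` on `G` with `f (c x) = - f x` contains a
nonzero function with values `0`, `1` and `-1`. -/
theorem exists_small (c : G) (M : Submodule ℚ (G → ℚ))
    (hM : ∀ f ∈ M, ∀ g : G, (fun x => f (g * x)) ∈ M)
    (hanti : ∀ f ∈ M, ∀ x, f (c * x) = -f x) (hne : M ≠ ⊥) :
    ∃ f ∈ M, f ≠ 0 ∧ ∀ x, f x = 0 ∨ f x = 1 ∨ f x = -1 := by
  classical
  have hSne : ext M ≠ ⊥ := by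
    obtain ⟨f, hf, hf0⟩ := Submodule.exists_mem_ne_zero_of_ne_bot hne
    intro h
    have h1 : (fun x => ((f x : ℚ) : AlgebraicClosure ℚ)) ∈ ext M :=
      Submodule.subset_span ⟨f, hf, rfl⟩
    rw [h, Submodule.mem_bot] at h1
    apply hf0
    funext x
    have h2 := congrFun h1 x
    exact Rat.cast_eq_zero.1 h2
  obtain ⟨χ, hχ⟩ := exists_char (ext M) (fun f hf g => tr_mem M hM f hf g) hSne
  have hc : χ c = -1 := by
    have h1 := anti_mem c M hanti _ hχ 1
    rw [mul_one, map_one] at h1
    exact h1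
  let χ' : G →* (AlgebraicClosure ℚ)ˣ := χ.toHomUnits
  have hχ' : ∀ g, ((χ' g : (AlgebraicClosure ℚ)ˣ) : AlgebraicClosure ℚ) = χ g := fun g => rfl
  have hfin : Finite χ'.range := by
    have : Finite (Set.range χ') := Set.finite_range χ'
    exact this
  have hcyc : IsCyclic χ'.range := isCyclic_subgroup_units χ'.range
  obtain ⟨u, hu⟩ := IsCyclic.exists_generator (α := χ'.range)
  obtain ⟨g₀, hg₀⟩ := u.2
  set ζ : AlgebraicClosure ℚ := χ g₀ with hζdef
  set n := orderOf ζ with hn
  have hgen : ∀ g, ∃ j : ℤ, χ g = ζ ^ j := by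
    intro g
    obtain ⟨j, hj⟩ := Subgroup.mem_zpowers_iff.1 (hu ⟨χ' g, g, rfl⟩)
    refine ⟨j, ?_⟩
    have h1 : (u.1) ^ j = χ' g := by
      have h2 := congrArg Subtype.val hj
      exact h2
    rw [← hg₀] at h1
    have h2 := congrArg (fun w : (AlgebraicClosure ℚ)ˣ => (w : AlgebraicClosure ℚ)) h1
    simp only [Units.val_zpow_eq_zpow_val] at h2
    rw [← hχ' g, ← h2]
    rfl
  have hn0 : n ≠ 0 := by
    have h1 : ζ ^ (Nat.card G) = 1 := by
      rw [hζdef, ← map_pow, pow_card_eq_one', map_one]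
    have h2 : 0 < orderOf ζ := orderOf_pos_iff.2 (isOfFinOrder_iff_pow_eq_one.2
      ⟨Nat.card G, Nat.card_pos, h1⟩)
    omega
  have hpn : ∀ g, χ g ^ n = 1 := by
    intro g
    obtain ⟨j, hj⟩ := hgen g
    rw [hj, ← zpow_natCast, ← zpow_mul, mul_comm, zpow_mul, zpow_natCast, pow_orderOf_eq_one,
      one_zpow]
  have heven : Even n := by
    have h1 := hpn c
    rw [hc] at h1
    by_contra h2
    rw [Nat.not_even_iff_odd] at h2
    rw [h2.neg_one_pow] at h1
    norm_num at h1
  obtain ⟨m, hm'⟩ := heven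
  have hm2 : n = 2 * m := by omega
  have hm : m ≠ 0 := by omega
  have hζ : IsPrimitiveRoot ζ (2 * m) := by
    rw [← hm2]
    exact IsPrimitiveRoot.orderOf ζ
  have hpow : ∀ k : ℕ, k.Coprime (2 * m) → (fun x => χ x ^ k) ∈ ext M := by
    intro k hk
    have i1 : Algebra.IsAlgebraic ℚ (AlgebraicClosure ℚ) := AlgebraicClosure.isAlgebraic ℚ
    have i2 : IsAlgClosure ℚ (AlgebraicClosure ℚ) := ⟨inferInstance, inferInstance⟩
    have i3 : Normal ℚ (AlgebraicClosure ℚ) := IsAlgClosure.normal ℚ (AlgebraicClosure ℚ)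
    have h2m : 0 < 2 * m := by omega
    have h1 : minpoly ℚ (ζ ^ k) = minpoly ℚ ζ := by
      rw [← Polynomial.cyclotomic_eq_minpoly_rat hζ h2m,
        ← Polynomial.cyclotomic_eq_minpoly_rat (hζ.pow_of_coprime k hk) h2m]
    obtain ⟨σ, hσ⟩ := isConjRoot_iff_exists_algEquiv.1
      (show IsConjRoot ℚ (ζ ^ k) ζ from h1)
    have h2 := gal_mem M σ _ hχ
    have h3 : (fun x => σ (χ x)) = fun x => χ x ^ k := by
      funext x
      obtain ⟨j, hj⟩ := hgen x
      rw [hj, map_zpow₀, hσ, ← zpow_natCast, ← zpow_natCast, ← zpow_mul, ← zpow_mul, mul_comm]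
    rw [h3] at h2
    exact h2
  refine ⟨fun x => small m ζ (χ x), ?_, ?_, fun x => small_values hm hζ (χ x)⟩
  · have h1 : (fun x => ((small m ζ (χ x) : ℚ) : AlgebraicClosure ℚ)) ∈ ext M := by
      have h2 : (fun x => ((small m ζ (χ x) : ℚ) : AlgebraicClosure ℚ)) =
          ∑ k ∈ Finset.range (2 * m),
            ((1 / ((2 * m : ℕ) : AlgebraicClosure ℚ)) * fc m ζ k) • (fun x => χ x ^ k) := by
        funext x
        rw [Finset.sum_apply, small_fourier hm hζ (χ x) (by rw [← hm2]; exact hpn x)]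
        rfl
      rw [h2]
      refine Submodule.sum_mem _ fun k _ => ?_
      by_cases hk : k.Coprime (2 * m)
      · exact Submodule.smul_mem _ _ (hpow k hk)
      · rw [fc_eq_zero hm hζ k hk, mul_zero, zero_smul]
        exact Submodule.zero_mem _
    have h2 := Pool.Agent.H204R3.CM.span_descent (M : Set (G → ℚ)) (fun x => small m ζ (χ x)) h1
    rwa [Submodule.span_eq] at h2
  · intro h
    have h1 := congrFun h 1
    change small m ζ (χ 1) = 0 at h1
    rw [map_one] at h1
    exact small_one hm hζ h1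

end Pool.Agent.H868R3.GPC
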