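import Mathlib
import Pool.Agent.H868R3.GPC.SmallMain
import Pool.Agent.H204R3.CM.Defs
import Pool.Agent.H925R2.Core

/-!
# Monomial relations between the periods of abelian varieties of CM type
-/

set_option linter.unusedSectionVars false
set_option linter.unusedVariables false

namespace Pool.Agent.H868R3.GPC

open NumberField

noncomputable section

/-- The CM types on `L`. -/
abbrev CMType (L : Type*) [Field L] : Type _ :=
  {Ψ : Set (L →+* ℂ) // Pool.Agent.H204R3.CM.IsCMType Ψ}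

/-- For a CM type `Ψ` and an embedding `φ` of the Galois field `L`: `1` if `φ ∘ σ` is in `Ψ`,
and `0` otherwise. -/
def typ {L : Type*} [Field L] [NumberField L] (x : CMType L × (L →+* ℂ)) (σ : L ≃ₐ[ℚ] L) : ℤ := by
  classical
  exact if x.2.comp (σ : L →+* L) ∈ x.1.1 then 1 else 0

/-- The periods of the abelian varieties over `ℚbar` with complex multiplication by the
field `L`. For a CM type `Ψ` on `L` and an embedding `φ` of `L`, the number `per (Ψ, φ)` is the
integral, over a fixed generator of the `L`-vector space `H_1(A, ℚ)`, of a `φ`-eigenclass in the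
algebraic de Rham cohomology `H¹(A / ℚbar)`, where `A` is the abelian variety of type `(L, Ψ)`.
* `ne_zero`: these numbers are not zero;
* `monomial`: the monomial relations of Shimura and Deligne (a product of periods is, up to an
  algebraic number, a power of `2πi` as soon as all the conjugates of the corresponding class
  have the Hodge type of a Tate class);
* `independent`: the theorem of Wüstholz (the quotient of the periods belonging to two
  eigenclasses is transcendental, if these eigenclasses have different types). -/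
structure PeriodSystem (L : Type*) [Field L] [NumberField L] where
  per : CMType L × (L →+* ℂ) → ℂ
  ne_zero : ∀ x, per x ≠ 0
  monomial : ∀ {A : Type} [Fintype A] (s : A → CMType L × (L →+* ℂ)) (ε : A → ℤ) (w : ℤ),
    (∀ σ : L ≃ₐ[ℚ] L, ∑ l, ε l * typ (s l) σ = w) →
      IsAlgebraic ℚ ((∏ l, per (s l) ^ ε l) / (2 * Real.pi * Complex.I) ^ w)
  independent : ∀ x y, typ x ≠ typ y → ¬ IsAlgebraic ℚ (per x / per y)

variable {L : Type*} [Field L] [NumberField L]

/-- The translate of a pair. -/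
def rot (x : CMType L × (L →+* ℂ)) (τ : L ≃ₐ[ℚ] L) : CMType L × (L →+* ℂ) :=
  (x.1, x.2.comp (τ : L →+* L))

theorem typ_rot (x : CMType L × (L →+* ℂ)) (τ σ : L ≃ₐ[ℚ] L) :
    typ (rot x τ) σ = typ x (τ * σ) := rfl

theorem rot_rot (x : CMType L × (L →+* ℂ)) (τ σ : L ≃ₐ[ℚ] L) :
    rot (rot x τ) σ = rot x (τ * σ) := rfl

theorem rot_one (x : CMType L × (L →+* ℂ)) : rot x 1 = x := rfl

variable [IsCMField L] (hab : ∀ σ τ : L ≃ₐ[ℚ] L, σ * τ = τ * σ)

/-- The complex conjugation. -/
def cc (L : Type*) [Field L] [NumberField L] [IsCMField L] : L ≃ₐ[ℚ] L :=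
  (IsCMField.complexConj L).restrictScalars ℚ

theorem comp_cc (φ : L →+* ℂ) :
    φ.comp ((cc L : L ≃ₐ[ℚ] L) : L →+* L) = ComplexEmbedding.conjugate φ := by
  ext x
  rw [ComplexEmbedding.conjugate_coe_eq]
  exact IsCMField.complexEmbedding_complexConj L φ x

include hab in
theorem typ_cc (x : CMType L × (L →+* ℂ)) (σ : L ≃ₐ[ℚ] L) :
    typ x (cc L * σ) = 1 - typ x σ := by
  classical
  rw [hab]
  have h1 : x.2.comp ((σ * cc L : L ≃ₐ[ℚ] L) : L →+* L) =
      ComplexEmbedding.conjugate (x.2.comp (σ : L →+* L)) := by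
    rw [← comp_cc]
    rfl
  unfold typ
  rw [h1]
  by_cases h : x.2.comp (σ : L →+* L) ∈ x.1.1
  · rw [if_pos h, if_neg ((x.1.2 _).1 h), sub_self]
  · have h2 : ComplexEmbedding.conjugate (x.2.comp (σ : L →+* L)) ∈ x.1.1 := by
      by_contra h3
      exact h ((x.1.2 _).2 h3)
    rw [if_neg h, if_pos h2, sub_zero]

theorem isAlg_zpow {z : ℂ} (hz : IsAlgebraic ℚ z) (n : ℤ) : IsAlgebraic ℚ (z ^ n) := by
  cases n with
  | ofNat n => 
    rw [Int.ofNat_eq_natCast, zpow_natCast]
    exact hz.pow n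
  | negSucc n =>
    rw [zpow_negSucc]
    exact (hz.pow _).inv

theorem isAlg_prod {A : Type*} (s : Finset A) (z : A → ℂ) (hz : ∀ a ∈ s, IsAlgebraic ℚ (z a)) :
    IsAlgebraic ℚ (∏ a ∈ s, z a) := by
  classical
  induction s using Finset.induction_on with
  | empty =>
    rw [Finset.prod_empty]
    exact isAlgebraic_one
  | insert a s ha ih =>
    rw [Finset.prod_insert ha]
    exact (hz a (Finset.mem_insert_self a s)).mul
      (ih fun b hb => hz b (Finset.mem_insert_of_mem hb))

theorem zpow_sum {A : Type*} {s : Finset A} {a : ℂ} (ha : a ≠ 0) {ε : A → ℤ} :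
    a ^ (∑ l ∈ s, ε l) = ∏ l ∈ s, a ^ ε l := by
  classical
  induction s using Finset.induction_on with
  | empty => rw [Finset.sum_empty, Finset.prod_empty, zpow_zero]
  | insert b s hb ih => rw [Finset.sum_insert hb, Finset.prod_insert hb, zpow_add₀ ha, ih]

variable (P : PeriodSystem L)

/-- The relations between the types of periods. -/
def rel : Submodule ℚ ((L ≃ₐ[ℚ] L) → ℚ) where
  carrier := {d | (∀ x, d (cc L * x) = -d x) ∧ ∃ N : ℕ, N ≠ 0 ∧ ∃ (A : Type) (_ : Fintype A)
    (s : A → CMType L × (L →+* ℂ)) (ε : A → ℤ),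
      (∀ σ, (N : ℚ) * d σ = ((∑ l, ε l * typ (s l) σ : ℤ) : ℚ)) ∧
      ∀ τ, IsAlgebraic ℚ (∏ l, P.per (rot (s l) τ) ^ ε l)}
  zero_mem' := by
    refine ⟨fun x => by simp, 1, one_ne_zero, Empty, inferInstance, fun a => a.elim,
      fun a => a.elim, fun σ => by simp, fun τ => ?_⟩
    rw [Fintype.prod_empty]
    exact isAlgebraic_one
  add_mem' := by
    rintro d d' ⟨h1, N, hN, A, _, s, ε, h2, h3⟩ ⟨h1', N', hN', A', _, s', ε', h2', h3'⟩
    refine ⟨fun x => by simp only [Pi.add_apply, h1, h1']; ring, N * N', mul_ne_zero hN hN',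
      A ⊕ A', inferInstance, Sum.elim s s', Sum.elim (fun l => N' * ε l) (fun l => N * ε' l),
      fun σ => ?_, fun τ => ?_⟩
    · rw [Fintype.sum_sum_type]
      simp only [Sum.elim_inl, Sum.elim_inr, mul_assoc, ← Finset.mul_sum, Pi.add_apply]
      push_cast at h2 h2' ⊢
      rw [← h2, ← h2']
      ring
    · rw [Fintype.prod_sum_type]
      simp only [Sum.elim_inl, Sum.elim_inr, mul_comm (N' : ℤ), mul_comm (N : ℤ), zpow_mul]
      rw [Finset.prod_zpow, Finset.prod_zpow]
      exact (isAlg_zpow (h3 τ) _).mul (isAlg_zpow (h3' τ) _)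
  smul_mem' := by
    rintro q d ⟨h1, N, hN, A, _, s, ε, h2, h3⟩
    refine ⟨fun x => by simp only [Pi.smul_apply, h1, smul_neg], N * q.den,
      mul_ne_zero hN q.den_ne_zero, A, inferInstance, s, fun l => q.num * ε l, fun σ => ?_,
      fun τ => ?_⟩
    · simp only [mul_assoc, ← Finset.mul_sum, Pi.smul_apply, smul_eq_mul]
      have h4 : (q.den : ℚ) * q = q.num := by
        rw [mul_comm]
        exact Rat.mul_den_eq_num q
      push_cast at h2 ⊢
      rw [← h2, ← h4]
      ring
    · simp only [mul_comm q.num, zpow_mul]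
      rw [Finset.prod_zpow]
      exact isAlg_zpow (h3 τ) _

include hab in
theorem rel_stable (d : (L ≃ₐ[ℚ] L) → ℚ) (hd : d ∈ rel P) (g : L ≃ₐ[ℚ] L) :
    (fun x => d (g * x)) ∈ rel P := by
  obtain ⟨h1, N, hN, A, _, s, ε, h2, h3⟩ := hd
  refine ⟨fun x => ?_, N, hN, A, inferInstance, fun l => rot (s l) g, ε, fun σ => ?_,
    fun τ => ?_⟩
  · change d (g * (cc L * x)) = -d (g * x)
    rw [← mul_assoc, hab g, mul_assoc, h1]
  · exact h2 (g * σ)
  · exact h3 (g * τ)

/-- The Galois group acts simply transitively on the embeddings. -/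
theorem exists_rot [IsGalois ℚ L] (φ₀ φ : L →+* ℂ) :
    ∃ σ : L ≃ₐ[ℚ] L, φ₀.comp (σ : L →+* L) = φ := by
  obtain ⟨σ, hσ⟩ := ComplexEmbedding.exists_comp_symm_eq_of_comp_eq (k := ℚ) φ₀ φ
    (Subsingleton.elim _ _)
  exact ⟨σ.symm, hσ⟩

theorem rot_injective (φ₀ : L →+* ℂ) (σ τ : L ≃ₐ[ℚ] L)
    (h : φ₀.comp (σ : L →+* L) = φ₀.comp (τ : L →+* L)) : σ = τ := by
  ext x
  exact φ₀.injective (RingHom.congr_fun h x)

include hab in
/-- There are no relations between the types of periods. -/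
theorem rel_eq_bot [IsGalois ℚ L] : rel P = ⊥ := by
  classical
  by_contra hne
  let _ : CommGroup (L ≃ₐ[ℚ] L) :=
    { (inferInstance : Group (L ≃ₐ[ℚ] L)) with mul_comm := hab }
  obtain ⟨f, hf, hf0, hfv⟩ := exists_small (cc L) (rel P)
    (fun f hf g => rel_stable hab P f hf g) (fun f hf => hf.1) hne
  obtain ⟨φ₀⟩ : Nonempty (L →+* ℂ) := inferInstance
  obtain ⟨Ψ₀, hΨ₀⟩ := Pool.Agent.H925R2.exists_isHalf (R := L →+* ℂ)
    (inv := ComplexEmbedding.conjugate) (fun φ => star_involutive φ) (fun φ h => by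
      have h1 := IsCMField.complexConj_ne_one L
      apply h1
      rw [← comp_cc] at h
      have h2 : cc L = 1 := rot_injective φ _ _ (by rw [h]; rfl)
      ext x
      exact AlgEquiv.congr_fun h2 x)
  choose s hs using fun φ => exists_rot φ₀ φ
  have hs' : ∀ σ : L ≃ₐ[ℚ] L, s (φ₀.comp (σ : L →+* L)) = σ := fun σ =>
    rot_injective φ₀ _ _ (hs _)
  have hsc : ∀ φ, s (ComplexEmbedding.conjugate φ) = cc L * s φ := by
    intro φ
    apply rot_injective φ₀
    rw [hs, ← comp_cc, hab]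
    conv_lhs => rw [← hs φ]
    rfl
  have hfs : ∀ φ, f (s (ComplexEmbedding.conjugate φ)) = -f (s φ) := by
    intro φ
    rw [hsc]
    exact hf.1 _
  have hΨ : ∀ ε : ℚ, (ε = 1 ∨ ε = -1) → Pool.Agent.H204R3.CM.IsCMType
      {φ : L →+* ℂ | f (s φ) = ε ∨ (f (s φ) = 0 ∧ φ ∈ Ψ₀)} := by
    intro ε hε φ
    rw [Set.mem_ofPred_eq, Set.mem_ofPred_eq, hfs, neg_eq_zero]
    have h1 := hΨ₀ φ
    rcases hfv (s φ) with h | h | h <;> rcases hε with rfl | rfl <;> rw [h] <;>
      norm_num [h1]
  let X : CMType L × (L →+* ℂ) := (⟨_, hΨ 1 (Or.inl rfl)⟩, φ₀)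
  let Y : CMType L × (L →+* ℂ) := (⟨_, hΨ (-1) (Or.inr rfl)⟩, φ₀)
  have hXY : ∀ σ, f σ = ((typ X σ - typ Y σ : ℤ) : ℚ) := by
    intro σ
    have h1 : typ X σ = if f σ = 1 ∨ (f σ = 0 ∧ φ₀.comp (σ : L →+* L) ∈ Ψ₀) then 1 else 0 := by
      unfold typ
      simp only [X, Set.mem_ofPred_eq, hs']
    have h2 : typ Y σ = if f σ = -1 ∨ (f σ = 0 ∧ φ₀.comp (σ : L →+* L) ∈ Ψ₀) then 1 else 0 := by
      unfold typ
      simp only [Y, Set.mem_ofPred_eq, hs']
    rw [h1, h2]
    rcases hfv σ with h | h | h <;> rw [h] <;> norm_num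
  have htyp : typ X ≠ typ Y := by
    intro h
    apply hf0
    funext σ
    rw [hXY σ, h, sub_self]
    rfl
  refine P.independent X Y htyp ?_
  obtain ⟨-, N, hN, A, _, t, ε, h2, h3⟩ := hf
  have h4 := P.monomial (A := A ⊕ Bool) (Sum.elim t (fun b => if b then X else Y))
    (Sum.elim ε (fun b => if b then -(N : ℤ) else N)) 0 (by
      intro σ
      rw [Fintype.sum_sum_type]
      simp only [Sum.elim_inl, Sum.elim_inr, Fintype.sum_bool, if_true, Bool.false_eq_true, if_false]
      have h5 := h2 σ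
      rw [hXY σ] at h5
      have h6 : (N : ℤ) * (typ X σ - typ Y σ) = ∑ l, ε l * typ (t l) σ := by
        exact_mod_cast h5
      rw [← h6]
      ring)
  rw [Fintype.prod_sum_type, zpow_zero, div_one] at h4
  simp only [Sum.elim_inl, Sum.elim_inr, Fintype.prod_bool, if_true, Bool.false_eq_true, if_false] at h4
  have h5 : IsAlgebraic ℚ (∏ l, P.per (t l) ^ ε l) := h3 1
  have hQ : (∏ l, P.per (t l) ^ ε l) ≠ 0 :=
    Finset.prod_ne_zero_iff.2 fun l _ => zpow_ne_zero _ (P.ne_zero _)
  have h6 : (P.per X / P.per Y) ^ N = (∏ l, P.per (t l) ^ ε l) *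
      ((∏ l, P.per (t l) ^ ε l) * (P.per X ^ (-(N : ℤ)) * P.per Y ^ (N : ℤ)))⁻¹ := by
    have hX := P.ne_zero X
    have hY := P.ne_zero Y
    rw [zpow_neg, zpow_natCast, zpow_natCast, div_pow]
    field_simp
  have h7 : IsAlgebraic ℚ ((P.per X / P.per Y) ^ N) := by
    rw [h6]
    exact h5.mul h4.inv
  exact h7.of_pow (Nat.pos_of_ne_zero hN)

include hab in
/-- Legendre's relation. -/
theorem legendre (x : CMType L × (L →+* ℂ)) :
    IsAlgebraic ℚ ((P.per x * P.per (rot x (cc L))) / (2 * Real.pi * Complex.I)) := by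
  have h1 := P.monomial (A := Bool) (fun b => if b then x else rot x (cc L)) (fun _ => 1) 1 (by
    intro σ
    simp only [Fintype.sum_bool, if_true, Bool.false_eq_true, if_false, one_mul]
    rw [typ_rot, typ_cc hab]
    ring)
  simpa only [Fintype.prod_bool, if_true, Bool.false_eq_true, if_false, zpow_one] using h1

include hab in
/-- **The key theorem.** If all the conjugates of a monomial in the periods are algebraic
multiples of `(2πi)^k`, where `2k` is the weight of the monomial, then the monomial has the type of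
a Tate class. -/
theorem key [IsGalois ℚ L] {A : Type} [Fintype A] (s : A → CMType L × (L →+* ℂ)) (ε : A → ℤ)
    (k : ℤ) (hk : ∑ l, ε l = 2 * k)
    (h : ∀ τ, IsAlgebraic ℚ ((∏ l, P.per (rot (s l) τ) ^ ε l) /
      (2 * Real.pi * Complex.I) ^ k)) (σ : L ≃ₐ[ℚ] L) :
    ∑ l, ε l * typ (s l) σ = k := by
  classical
  have hpi : (2 * Real.pi * Complex.I : ℂ) ≠ 0 := Complex.two_pi_I_ne_zero
  have hmem : (fun σ => ((∑ l, ε l * typ (s l) σ - k : ℤ) : ℚ)) ∈ rel P := by
    refine ⟨fun x => ?_, 2, two_ne_zero, A ⊕ A, inferInstance,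
      Sum.elim s (fun l => rot (s l) (cc L)), Sum.elim ε (fun l => -ε l), fun σ => ?_,
      fun τ => ?_⟩
    · have h1 : ∑ l, ε l * typ (s l) (cc L * x) = 2 * k - ∑ l, ε l * typ (s l) x := by
        rw [← hk, ← Finset.sum_sub_distrib]
        refine Finset.sum_congr rfl fun l _ => ?_
        rw [typ_cc hab]
        ring
      change ((∑ l, ε l * typ (s l) (cc L * x) - k : ℤ) : ℚ) =
        -((∑ l, ε l * typ (s l) x - k : ℤ) : ℚ)
      rw [h1]
      push_cast
      ring
    · rw [Fintype.sum_sum_type]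
      simp only [Sum.elim_inl, Sum.elim_inr]
      have h1 : ∑ l, -ε l * typ (rot (s l) (cc L)) σ = ∑ l, ε l * typ (s l) σ - 2 * k := by
        rw [← hk, ← Finset.sum_sub_distrib]
        refine Finset.sum_congr rfl fun l _ => ?_
        rw [typ_rot, typ_cc hab]
        ring
      rw [h1]
      push_cast
      ring
    · rw [Fintype.prod_sum_type]
      simp only [Sum.elim_inl, Sum.elim_inr]
      have h1 : (∏ l, P.per (rot (s l) τ) ^ ε l) *
          ∏ l, P.per (rot (rot (s l) (cc L)) τ) ^ (-ε l) =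
          ((∏ l, P.per (rot (s l) τ) ^ ε l) / (2 * Real.pi * Complex.I) ^ k) ^ 2 *
            (∏ l, ((P.per (rot (s l) τ) * P.per (rot (rot (s l) τ) (cc L))) /
              (2 * Real.pi * Complex.I)) ^ ε l)⁻¹ := by
        have h2 : ∏ l, ((P.per (rot (s l) τ) * P.per (rot (rot (s l) τ) (cc L))) /
              (2 * Real.pi * Complex.I)) ^ ε l =
            (∏ l, P.per (rot (s l) τ) ^ ε l) * (∏ l, P.per (rot (rot (s l) (cc L)) τ) ^ ε l) /
              (2 * Real.pi * Complex.I) ^ (2 * k) := by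
          rw [← hk, ← Finset.prod_mul_distrib, zpow_sum hpi,
            ← Finset.prod_div_distrib]
          refine Finset.prod_congr rfl fun l _ => ?_
          rw [div_zpow, mul_zpow, rot_rot, rot_rot, hab τ]
        rw [h2]
        have h3 : (∏ l, P.per (rot (s l) τ) ^ ε l) ≠ 0 :=
          Finset.prod_ne_zero_iff.2 fun l _ => zpow_ne_zero _ (P.ne_zero _)
        have h4 : (∏ l, P.per (rot (rot (s l) (cc L)) τ) ^ ε l) ≠ 0 :=
          Finset.prod_ne_zero_iff.2 fun l _ => zpow_ne_zero _ (P.ne_zero _)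
        have h5 : ∏ l, P.per (rot (rot (s l) (cc L)) τ) ^ (-ε l) =
            (∏ l, P.per (rot (rot (s l) (cc L)) τ) ^ ε l)⁻¹ := by
          rw [← Finset.prod_inv_distrib]
          exact Finset.prod_congr rfl fun l _ => zpow_neg _ _
        rw [h5, mul_comm 2 k, zpow_mul]
        have h6 : ((2 * Real.pi * Complex.I : ℂ) ^ k) ≠ 0 := zpow_ne_zero _ hpi
        have h7 : ((2 * Real.pi * Complex.I : ℂ) ^ k) ^ (2 : ℤ) =
          ((2 * Real.pi * Complex.I : ℂ) ^ k) ^ 2 := zpow_natCast _ 2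
        rw [h7]
        field_simp
      rw [h1]
      exact ((h τ).pow 2).mul (isAlg_prod _ _ fun l _ => isAlg_zpow (legendre hab P _) _).inv
  rw [rel_eq_bot hab P, Submodule.mem_bot] at hmem
  have h1 := congrFun hmem σ
  have h2 : ((∑ l, ε l * typ (s l) σ - k : ℤ) : ℚ) = 0 := h1
  have h3 : ∑ l, ε l * typ (s l) σ - k = 0 := by exact_mod_cast h2
  linarith

end

end Pool.Agent.H868R3.GPC
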